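import Mathlib

/-!
The realisable frustration parameters of non-equitable graph bipartitions are exactly the
angles in the open interval from zero to a right angle whose squared tangent is rational.
-/

set_option autoImplicit false

open Real

namespace Pool.Agent.Results.MP_7aff4e_co.Realisable

/-- The number of neighbours of `v` in the vertex set `S`. -/
noncomputable def nbrs {V : Type} (G : SimpleGraph V) (S : Set V) (v : V) : ℕ :=
  {w : V | G.Adj v w ∧ w ∈ S}.ncard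

/-- The bipartition with parts `S` and its complement is equitable: on each part, the numbers
of neighbours in the first part and in the second part are constant. -/
def Equitable {V : Type} (G : SimpleGraph V) (S : Set V) : Prop :=
  (∀ i ∈ S, ∀ i' ∈ S, nbrs G S i = nbrs G S i' ∧ nbrs G Sᶜ i = nbrs G Sᶜ i') ∧
  (∀ j ∈ Sᶜ, ∀ j' ∈ Sᶜ, nbrs G S j = nbrs G S j' ∧ nbrs G Sᶜ j = nbrs G Sᶜ j')

/-- The linear degree condition with parameters `μ₁`, `μ₂`, `r` for the bipartition with first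
part `S` and second part its complement. -/
def LinearDegree {V : Type} (G : SimpleGraph V) (S : Set V) (μ₁ μ₂ r : ℝ) : Prop :=
  (∀ i ∈ S, -(nbrs G S i : ℝ) + μ₁ * (nbrs G Sᶜ i : ℝ) = r) ∧
  (∀ j ∈ Sᶜ, -(nbrs G Sᶜ j : ℝ) + μ₂ * (nbrs G S j : ℝ) = r)

/-- `α` is realised by some finite connected simple graph with a non-equitable bipartition into
two nonempty parts satisfying the linear degree condition with parameters in the admissible
range. -/
def IsRealised (α : ℝ) : Prop :=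
  ∃ (V : Type) (_ : Finite V) (G : SimpleGraph V) (S : Set V),
    G.Connected ∧ S.Nonempty ∧ Sᶜ.Nonempty ∧ ¬ Equitable G S ∧
    ∃ μ₁ μ₂ r : ℝ, LinearDegree G S μ₁ μ₂ r ∧ |μ₁ + μ₂| < 2 ∧ μ₂ < μ₁ ∧
      α = arctan (√(4 - (μ₁ + μ₂) ^ 2) / (μ₁ - μ₂))

/-! ### The parameters are rational -/

lemma exists_edge {V : Type} (G : SimpleGraph V) (S : Set V) (hG : G.Connected)
    (hS : S.Nonempty) (hS' : Sᶜ.Nonempty) : ∃ a ∈ S, ∃ b ∈ Sᶜ, G.Adj a b := by
  obtain ⟨u, hu⟩ := hS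
  obtain ⟨v, hv⟩ := hS'
  obtain ⟨p⟩ := hG.preconnected u v
  obtain ⟨d, hd, h1, h2⟩ := p.exists_boundary_dart S hu hv
  exact ⟨d.fst, h1, d.snd, h2, d.adj⟩

lemma nbrs_pos {V : Type} [Finite V] (G : SimpleGraph V) (S : Set V) {a b : V}
    (h : G.Adj a b) (hb : b ∈ S) : 0 < nbrs G S a := by
  unfold nbrs
  rw [Set.ncard_pos]
  exact ⟨b, h, hb⟩

lemma slope_rational {x₁ x₂ y₁ y₂ : ℕ} {μ r : ℝ} (h : ¬ (x₁ = x₂ ∧ y₁ = y₂))
    (h₁ : -(x₁ : ℝ) + μ * (y₁ : ℝ) = r) (h₂ : -(x₂ : ℝ) + μ * (y₂ : ℝ) = r) :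
    (∃ m : ℚ, μ = m) ∧ (∃ s : ℚ, r = s) := by
  have hy : (y₁ : ℝ) ≠ y₂ := by
    intro hy
    apply h
    have hx : (x₁ : ℝ) = x₂ := by
      rw [hy] at h₁
      linarith
    exact ⟨by exact_mod_cast hx, by exact_mod_cast hy⟩
  have hy' : (y₁ : ℝ) - y₂ ≠ 0 := sub_ne_zero.mpr hy
  have hm : μ = (((x₁ : ℚ) - x₂) / ((y₁ : ℚ) - y₂) : ℚ) := by
    push_cast
    rw [eq_div_iff hy']
    linarith
  refine ⟨⟨_, hm⟩, ⟨-(x₁ : ℚ) + (((x₁ : ℚ) - x₂) / ((y₁ : ℚ) - y₂)) * y₁, ?_⟩⟩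
  rw [← h₁, hm]
  push_cast
  ring

lemma other_rational {x y : ℕ} {μ r : ℝ} (hr : ∃ s : ℚ, r = s) (hy : 0 < y)
    (h : -(x : ℝ) + μ * (y : ℝ) = r) : ∃ m : ℚ, μ = m := by
  obtain ⟨s, hs⟩ := hr
  have hy' : (y : ℝ) ≠ 0 := by exact_mod_cast hy.ne'
  refine ⟨(s + x) / y, ?_⟩
  push_cast
  rw [eq_div_iff hy', ← hs]
  linarith

lemma params_rational {V : Type} [Finite V] (G : SimpleGraph V) (S : Set V)
    (hG : G.Connected) (hS : S.Nonempty) (hS' : Sᶜ.Nonempty) (hne : ¬ Equitable G S)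
    {μ₁ μ₂ r : ℝ} (h : LinearDegree G S μ₁ μ₂ r) :
    (∃ m₁ : ℚ, μ₁ = m₁) ∧ (∃ m₂ : ℚ, μ₂ = m₂) := by
  obtain ⟨a, ha, b, hb, hab⟩ := exists_edge G S hG hS hS'
  have hpa : 0 < nbrs G Sᶜ a := nbrs_pos G Sᶜ hab hb
  have hpb : 0 < nbrs G S b := nbrs_pos G S hab.symm ha
  obtain ⟨h₁, h₂⟩ := h
  unfold Equitable at hne
  rw [not_and_or] at hne
  rcases hne with hne | hne
  · push Not at hne
    obtain ⟨i, hi, i', hi', hii⟩ := hne
    have := slope_rational (fun hc => hii hc.1 hc.2) (h₁ i hi) (h₁ i' hi')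
    exact ⟨this.1, other_rational this.2 hpb (h₂ b hb)⟩
  · push Not at hne
    obtain ⟨i, hi, i', hi', hii⟩ := hne
    have := slope_rational (fun hc => hii hc.2 hc.1) (h₂ i hi) (h₂ i' hi')
    exact ⟨other_rational this.2 hpa (h₁ a ha), this.1⟩

/-! ### The construction -/

/-- Vertices: three blocks, each a `q` by `n` grid. The first block carries the complete graphs
along the first coordinate, the second block the complete graphs along the second coordinate;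
the first two blocks are joined by a perfect matching, and a vertex of the second block is
joined to the vertices of the third block with the same second coordinate. -/
def Gr (q n : ℕ) : SimpleGraph (Fin 3 × Fin q × Fin n) where
  Adj u v :=
    (u.1 = 0 ∧ v.1 = 0 ∧ u.2.1 ≠ v.2.1 ∧ u.2.2 = v.2.2) ∨
    (u.1 = 1 ∧ v.1 = 1 ∧ u.2.1 = v.2.1 ∧ u.2.2 ≠ v.2.2) ∨
    (((u.1 = 0 ∧ v.1 = 1) ∨ (u.1 = 1 ∧ v.1 = 0)) ∧ u.2.1 = v.2.1 ∧ u.2.2 = v.2.2) ∨
    (((u.1 = 1 ∧ v.1 = 2) ∨ (u.1 = 2 ∧ v.1 = 1)) ∧ u.2.2 = v.2.2)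
  symm := ⟨by
    rintro ⟨a, b, c⟩ ⟨a', b', c'⟩ h
    simp only at h ⊢
    rcases h with ⟨h1, h2, h3, h4⟩ | ⟨h1, h2, h3, h4⟩ | ⟨h1, h2, h3⟩ | ⟨h1, h2⟩
    · exact Or.inl ⟨h2, h1, fun h => h3 h.symm, h4.symm⟩
    · exact Or.inr (Or.inl ⟨h2, h1, h3.symm, fun h => h4 h.symm⟩)
    · exact Or.inr (Or.inr (Or.inl ⟨h1.symm.imp And.symm And.symm, h2.symm, h3.symm⟩))
    · exact Or.inr (Or.inr (Or.inr ⟨h1.symm.imp And.symm And.symm, h2.symm⟩))⟩
  loopless := ⟨by
    rintro ⟨a, b, c⟩ h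
    simp only at h
    rcases h with ⟨h1, h2, h3, h4⟩ | ⟨h1, h2, h3, h4⟩ | ⟨h1, h2, h3⟩ | ⟨h1, h2⟩
    · exact h3 rfl
    · exact h4 rfl
    · rcases h1 with ⟨h, h'⟩ | ⟨h, h'⟩ <;> rw [h] at h' <;> exact absurd h' (by decide)
    · rcases h1 with ⟨h, h'⟩ | ⟨h, h'⟩ <;> rw [h] at h' <;> exact absurd h' (by decide)⟩

/-- The first part: the first two blocks. -/
def Sr (q n : ℕ) : Set (Fin 3 × Fin q × Fin n) := {v | v.1 ≠ 2}

lemma ncard_of_inj {α V : Type} [Fintype α] (f : α → V) (hf : Function.Injective f)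
    (T : Set V) (hT : T = Set.range f) : T.ncard = Fintype.card α := by
  rw [hT, ← Set.image_univ, Set.ncard_image_of_injective _ hf, Set.ncard_univ,
    Nat.card_eq_fintype_card]

lemma nbrs_zero_S (q n : ℕ) (x : Fin q) (y : Fin n) :
    nbrs (Gr q n) (Sr q n) (0, x, y) = q := by
  have := ncard_of_inj (fun x' : Fin q => if x' = x then ((1 : Fin 3), x, y) else (0, x', y))
    (by
      intro a b hab
      simp only at hab
      split_ifs at hab with h1 h2 h2
      · rw [h1, h2]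
      · simp at hab
      · simp at hab
      · exact congrArg (fun t => t.2.1) hab)
    {w | (Gr q n).Adj (0, x, y) w ∧ w ∈ Sr q n}
    (by
      ext ⟨i, x', y'⟩
      simp only [Gr, Sr, Set.mem_ofPred_eq, Set.mem_range]
      constructor
      · rintro ⟨h, -⟩
        rcases h with ⟨-, h2, h3, h4⟩ | ⟨h1, -⟩ | ⟨h1, h2, h3⟩ | ⟨h1, h2⟩
        · exact ⟨x', by rw [if_neg (fun h => h3 h.symm), h2, h4]⟩
        · exact absurd h1 (by decide)
        · rcases h1 with ⟨-, h'⟩ | ⟨h', -⟩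
          · exact ⟨x, by rw [if_pos rfl, h', ← h2, ← h3]⟩
          · exact absurd h' (by decide)
        · rcases h1 with ⟨h', -⟩ | ⟨h', -⟩ <;> exact absurd h' (by decide)
      · rintro ⟨z, hz⟩
        split_ifs at hz with h
        · simp only [Prod.mk.injEq] at hz
          obtain ⟨rfl, rfl, rfl⟩ := hz
          simp
        · simp only [Prod.mk.injEq] at hz
          obtain ⟨rfl, rfl, rfl⟩ := hz
          have h' : x ≠ z := fun h' => h h'.symm
          simp [h'])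
  simpa [nbrs] using this

lemma nbrs_zero_Sc (q n : ℕ) (x : Fin q) (y : Fin n) :
    nbrs (Gr q n) (Sr q n)ᶜ (0, x, y) = 0 := by
  have : {w | (Gr q n).Adj (0, x, y) w ∧ w ∈ (Sr q n)ᶜ} = ∅ := by
    ext ⟨i, x', y'⟩
    simp only [Gr, Sr, Set.mem_ofPred_eq, Set.mem_compl_iff, not_not, Set.mem_empty_iff_false,
      iff_false]
    rintro ⟨h, hi⟩
    subst hi
    rcases h with ⟨-, h2, -⟩ | ⟨h1, -⟩ | ⟨h1, h2, h3⟩ | ⟨h1, h2⟩
    · exact absurd h2 (by decide)
    · exact absurd h1 (by decide)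
    · rcases h1 with ⟨-, h'⟩ | ⟨h', -⟩ <;> exact absurd h' (by decide)
    · rcases h1 with ⟨h', -⟩ | ⟨h', -⟩ <;> exact absurd h' (by decide)
  rw [nbrs, this, Set.ncard_empty]

lemma nbrs_one_S (q n : ℕ) (x : Fin q) (y : Fin n) :
    nbrs (Gr q n) (Sr q n) (1, x, y) = n := by
  have := ncard_of_inj (fun y' : Fin n => if y' = y then ((0 : Fin 3), x, y) else (1, x, y'))
    (by
      intro a b hab
      simp only at hab
      split_ifs at hab with h1 h2 h2
      · rw [h1, h2]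
      · simp at hab
      · simp at hab
      · exact congrArg (fun t => t.2.2) hab)
    {w | (Gr q n).Adj (1, x, y) w ∧ w ∈ Sr q n}
    (by
      ext ⟨i, x', y'⟩
      simp only [Gr, Sr, Set.mem_ofPred_eq, Set.mem_range]
      constructor
      · rintro ⟨h, hi⟩
        rcases h with ⟨h1, -⟩ | ⟨-, h2, h3, h4⟩ | ⟨h1, h2, h3⟩ | ⟨h1, h2⟩
        · exact absurd h1 (by decide)
        · exact ⟨y', by rw [if_neg (fun h => h4 h.symm), h2, h3]⟩
        · rcases h1 with ⟨h', -⟩ | ⟨-, h'⟩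
          · exact absurd h' (by decide)
          · exact ⟨y, by rw [if_pos rfl, h', ← h2, ← h3]⟩
        · rcases h1 with ⟨-, h'⟩ | ⟨h', -⟩
          · exact absurd h' hi
          · exact absurd h' (by decide)
      · rintro ⟨z, hz⟩
        split_ifs at hz with h
        · simp only [Prod.mk.injEq] at hz
          obtain ⟨rfl, rfl, rfl⟩ := hz
          simp
        · simp only [Prod.mk.injEq] at hz
          obtain ⟨rfl, rfl, rfl⟩ := hz
          have h' : y ≠ z := fun h' => h h'.symm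
          simp [h'])
  simpa [nbrs] using this

lemma nbrs_one_Sc (q n : ℕ) (x : Fin q) (y : Fin n) :
    nbrs (Gr q n) (Sr q n)ᶜ (1, x, y) = q := by
  have := ncard_of_inj (fun x' : Fin q => ((2 : Fin 3), x', y))
    (by
      intro a b hab
      exact congrArg (fun t => t.2.1) hab)
    {w | (Gr q n).Adj (1, x, y) w ∧ w ∈ (Sr q n)ᶜ}
    (by
      ext ⟨i, x', y'⟩
      simp only [Gr, Sr, Set.mem_ofPred_eq, Set.mem_range, Set.mem_compl_iff, not_not]
      constructor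
      · rintro ⟨h, hi⟩
        subst hi
        rcases h with ⟨h1, -⟩ | ⟨-, h2, h3, h4⟩ | ⟨h1, h2, h3⟩ | ⟨h1, h2⟩
        · exact absurd h1 (by decide)
        · exact absurd h2 (by decide)
        · rcases h1 with ⟨h', -⟩ | ⟨-, h'⟩ <;> exact absurd h' (by decide)
        · exact ⟨x', by rw [h2]⟩
      · rintro ⟨z, hz⟩
        simp only [Prod.mk.injEq] at hz
        obtain ⟨rfl, rfl, rfl⟩ := hz
        simp)
  simpa [nbrs] using this

lemma nbrs_two_S (q n : ℕ) (x : Fin q) (y : Fin n) :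
    nbrs (Gr q n) (Sr q n) (2, x, y) = q := by
  have := ncard_of_inj (fun x' : Fin q => ((1 : Fin 3), x', y))
    (by
      intro a b hab
      exact congrArg (fun t => t.2.1) hab)
    {w | (Gr q n).Adj (2, x, y) w ∧ w ∈ Sr q n}
    (by
      ext ⟨i, x', y'⟩
      simp only [Gr, Sr, Set.mem_ofPred_eq, Set.mem_range]
      constructor
      · rintro ⟨h, hi⟩
        rcases h with ⟨h1, -⟩ | ⟨h1, -⟩ | ⟨h1, h2, h3⟩ | ⟨h1, h2⟩
        · exact absurd h1 (by decide)
        · exact absurd h1 (by decide)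
        · rcases h1 with ⟨h', -⟩ | ⟨h', -⟩ <;> exact absurd h' (by decide)
        · rcases h1 with ⟨h', -⟩ | ⟨-, h'⟩
          · exact absurd h' (by decide)
          · exact ⟨x', by rw [h2, h']⟩
      · rintro ⟨z, hz⟩
        simp only [Prod.mk.injEq] at hz
        obtain ⟨rfl, rfl, rfl⟩ := hz
        simp)
  simpa [nbrs] using this

lemma nbrs_two_Sc (q n : ℕ) (x : Fin q) (y : Fin n) :
    nbrs (Gr q n) (Sr q n)ᶜ (2, x, y) = 0 := by
  have : {w | (Gr q n).Adj (2, x, y) w ∧ w ∈ (Sr q n)ᶜ} = ∅ := by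
    ext ⟨i, x', y'⟩
    simp only [Gr, Sr, Set.mem_ofPred_eq, Set.mem_compl_iff, not_not, Set.mem_empty_iff_false,
      iff_false]
    rintro ⟨h, hi⟩
    subst hi
    rcases h with ⟨h1, -⟩ | ⟨h1, -⟩ | ⟨h1, h2, h3⟩ | ⟨h1, h2⟩
    · exact absurd h1 (by decide)
    · exact absurd h1 (by decide)
    · rcases h1 with ⟨h', -⟩ | ⟨h', -⟩ <;> exact absurd h' (by decide)
    · rcases h1 with ⟨h', -⟩ | ⟨-, h'⟩ <;> exact absurd h' (by decide)
  rw [nbrs, this, Set.ncard_empty]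

lemma gr_connected (q n : ℕ) (hq : 0 < q) (hn : 0 < n) : (Gr q n).Connected := by
  have e0 : ∀ (x x' : Fin q) (y : Fin n), (Gr q n).Reachable (0, x, y) (0, x', y) := by
    intro x x' y
    by_cases h : x = x'
    · rw [h]
    · exact SimpleGraph.Adj.reachable (Or.inl ⟨rfl, rfl, h, rfl⟩)
  have e1 : ∀ (x : Fin q) (y y' : Fin n), (Gr q n).Reachable (1, x, y) (1, x, y') := by
    intro x y y'
    by_cases h : y = y'
    · rw [h]
    · exact SimpleGraph.Adj.reachable (Or.inr (Or.inl ⟨rfl, rfl, rfl, h⟩))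
  have e01 : ∀ (x : Fin q) (y : Fin n), (Gr q n).Reachable (0, x, y) (1, x, y) := by
    intro x y
    exact SimpleGraph.Adj.reachable (Or.inr (Or.inr (Or.inl ⟨Or.inl ⟨rfl, rfl⟩, rfl, rfl⟩)))
  have e21 : ∀ (x : Fin q) (y : Fin n), (Gr q n).Reachable (2, x, y) (1, x, y) := by
    intro x y
    exact SimpleGraph.Adj.reachable (Or.inr (Or.inr (Or.inr ⟨Or.inr ⟨rfl, rfl⟩, rfl⟩)))
  let x0 : Fin q := ⟨0, hq⟩
  let y0 : Fin n := ⟨0, hn⟩
  have key : ∀ v : Fin 3 × Fin q × Fin n, (Gr q n).Reachable v (1, x0, y0) := by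
    rintro ⟨i, x, y⟩
    have h1 : (Gr q n).Reachable (1, x, y) (1, x0, y0) :=
      ((e01 x y).symm.trans ((e0 x x0 y).trans (e01 x0 y))).trans (e1 x0 y y0)
    fin_cases i
    · exact (e01 x y).trans h1
    · exact h1
    · exact (e21 x y).trans h1
  have : Nonempty (Fin 3 × Fin q × Fin n) := ⟨(1, x0, y0)⟩
  exact ⟨fun u v => (key u).trans (key v).symm⟩

lemma gr_linearDegree (q n : ℕ) (hq : 0 < q) :
    LinearDegree (Gr q n) (Sr q n) ((n : ℝ) / q - 1) (-1) (-(q : ℝ)) := by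
  have hq' : (q : ℝ) ≠ 0 := by exact_mod_cast hq.ne'
  constructor
  · rintro ⟨i, x, y⟩ hi
    fin_cases i
    · simp only [Fin.zero_eta]
      rw [nbrs_zero_S, nbrs_zero_Sc]
      simp
    · simp only [Fin.mk_one]
      rw [nbrs_one_S, nbrs_one_Sc]
      field_simp
      ring
    · exact absurd rfl hi
  · rintro ⟨i, x, y⟩ hi
    fin_cases i
    · exact absurd (by simp [Sr]) hi
    · exact absurd (by simp [Sr]) hi
    · simp only [Fin.reduceFinMk]
      rw [nbrs_two_S, nbrs_two_Sc]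
      simp

lemma gr_not_equitable (q n : ℕ) (hq : 0 < q) (hn : 0 < n) :
    ¬ Equitable (Gr q n) (Sr q n) := by
  intro h
  have := (h.1 (0, ⟨0, hq⟩, ⟨0, hn⟩) (by simp [Sr]) (1, ⟨0, hq⟩, ⟨0, hn⟩) (by simp [Sr])).2
  rw [nbrs_zero_Sc, nbrs_one_Sc] at this
  omega

theorem result :
    {α : ℝ | α ∈ Set.Ioo 0 (π / 2) ∧ IsRealised α} =
      {α : ℝ | α ∈ Set.Ioo 0 (π / 2) ∧ ∃ t : ℚ, tan α ^ 2 = t} := by
  ext α
  simp only [Set.mem_ofPred_eq, and_congr_right_iff]
  intro hα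
  constructor
  · rintro ⟨V, hV, G, S, hG, hS, hS', hne, μ₁, μ₂, r, h, h2, h12, rfl⟩
    obtain ⟨⟨m₁, rfl⟩, ⟨m₂, rfl⟩⟩ := params_rational G S hG hS hS' hne h
    refine ⟨(4 - (m₁ + m₂) ^ 2) / (m₁ - m₂) ^ 2, ?_⟩
    rw [Real.tan_arctan, div_pow, Real.sq_sqrt]
    · push_cast
      ring
    · have := abs_lt.mp h2
      nlinarith [this.1, this.2]
  · rintro ⟨t, ht⟩
    have htan : 0 < tan α := Real.tan_pos_of_pos_of_lt_pi_div_two hα.1 hα.2
    have ht0 : (0 : ℝ) < t := by rw [← ht]; positivity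
    have htq : (0 : ℚ) < t := by exact_mod_cast ht0
    have hw : (0 : ℚ) < 4 / (1 + t) := by positivity
    set w : ℚ := 4 / (1 + t) with hwdef
    have hnum : 0 < w.num := Rat.num_pos.mpr hw
    obtain ⟨n, hn⟩ := Int.eq_ofNat_of_zero_le hnum.le
    have hn0 : 0 < n := by
      have : (0 : ℤ) < n := by rw [← hn]; exact hnum
      exact_mod_cast this
    have hwn : (n : ℝ) / w.den = w := by
      have h1 : ((w.num : ℚ) / w.den : ℚ) = w := Rat.num_div_den w
      rw [hn] at h1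
      have h2 := congrArg (fun z : ℚ => (z : ℝ)) h1
      simpa using h2
    have hwr : (w : ℝ) = 4 / (1 + t) := by
      rw [hwdef]; push_cast; ring
    have hw0 : (0 : ℝ) < w := by exact_mod_cast hw
    have hw4 : (w : ℝ) < 4 := by
      rw [hwr, div_lt_iff₀ (by positivity)]
      nlinarith
    refine ⟨Fin 3 × Fin w.den × Fin n, inferInstance, Gr w.den n, Sr w.den n,
      gr_connected _ _ w.den_pos hn0, ⟨(0, ⟨0, w.den_pos⟩, ⟨0, hn0⟩), by simp [Sr]⟩,
      ⟨(2, ⟨0, w.den_pos⟩, ⟨0, hn0⟩), by simp [Sr]⟩, gr_not_equitable _ _ w.den_pos hn0,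
      (n : ℝ) / w.den - 1, -1, _, gr_linearDegree _ _ w.den_pos, ?_, ?_, ?_⟩
    · rw [hwn, abs_lt]
      constructor <;> linarith
    · rw [hwn]
      linarith
    · rw [hwn]
      have h1 : √(4 - ((w : ℝ) - 1 + -1) ^ 2) / ((w : ℝ) - 1 - -1) = tan α := by
        have hsq : 4 - ((w : ℝ) - 1 + -1) ^ 2 = (tan α * w) ^ 2 := by
          rw [mul_pow, ht, hwr]
          field_simp
          ring
        rw [hsq, Real.sqrt_sq (by positivity)]
        have : ((w : ℝ) - 1 - -1) = w := by ring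
        rw [this]
        field_simp
      rw [h1, Real.arctan_tan]
      · linarith [hα.1, Real.pi_pos]
      · exact hα.2

end Pool.Agent.Results.MP_7aff4e_co.Realisable
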